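import Mathlib
import Pool.Agent.Helper421.BargmannDefs
import Pool.Agent.Helper421.FockExample

set_option autoImplicit false

namespace Pool.Agent.Results.MP_d26497_an.Main

open Pool.Agent.Helper421.BargmannDefs Pool.Agent.Helper421.FockExample

/-- A homogeneous polynomial symbol `ψ = |z₀|² |z₁|²` on `ℂ²` whose (closed) Toeplitz operator has
compact resolvent, and a lower order perturbation `φ₁ = - |z₀|² - |z₁|²` that destroys this. -/
theorem result : ∃ (n N : ℕ) (ψ φ₁ : MvPolynomial (Fin n ⊕ Fin n) ℂ),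
    1 ≤ n ∧ 1 ≤ N ∧ ψ.IsHomogeneous N ∧ φ₁.totalDegree ≤ N - 1 ∧
    ToeplitzClosable n (symbol ψ) ∧ ToeplitzClosable n (symbol (ψ + φ₁)) ∧
    ToeplitzCompactResolvent n (symbol ψ) ∧ ¬ ToeplitzCompactResolvent n (symbol (ψ + φ₁)) :=
  ⟨2, 4, psi, phi1, by norm_num, by norm_num, psi_hom, phi1_deg, old_result.1, old_result.2.1,
    old_result.2.2.1, old_result.2.2.2⟩

end Pool.Agent.Results.MP_d26497_an.Main
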